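import Pool.Agent.L5helper98.CG.Defs

/-!
# Homogeneity of the moments in the weights
-/

set_option autoImplicit false

open MeasureTheory ProbabilityTheory

namespace Pool.Agent.L5helper83.CG

open Pool.Agent.L5helper98.CG

theorem HOM_holds : St_HOM := by
  intro n C b hb p hp q
  unfold gm
  rw [← lintegral_const_mul' _ _ ENNReal.ofReal_ne_top]
  refine lintegral_congr fun x => ?_
  have hS : 0 ≤ ∑ i, p i * Real.exp (x i - C i i / 2) :=
    Finset.sum_nonneg fun i _ => mul_nonneg (hp i) (Real.exp_pos _).le
  have h1 : ∑ i, b * p i * Real.exp (x i - C i i / 2) =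
      b * ∑ i, p i * Real.exp (x i - C i i / 2) := by
    rw [Finset.mul_sum]
    exact Finset.sum_congr rfl fun i _ => mul_assoc _ _ _
  rw [h1, Real.mul_rpow hb.le hS, ENNReal.ofReal_mul (Real.rpow_nonneg hb.le q)]

end Pool.Agent.L5helper83.CG
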